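import Pool.Agent.Q94.LFMain

/-!
# Uniqueness for the Legendre-Fenchel fixed-point equation

For a positive definite `E` on a real inner product space `X ≠ {0}`, the quadratic function `f₀` is
the only function `f : X → [-∞, ∞]` with `f(x) = τ f^*(E x + c) + ⟨w, x⟩ + β` for all `x`
if and only if `τ = 1` and `c = w`. For `τ ≠ 1` another solution is, up to a translation and an
affine function, `x ↦ sup_k (l^k |x|_E - (l / (l + 1)) l^(2 k))` with `l = 1 / τ`, where `k` runs
over the integers and `|x|_E = ⟨E x, x⟩^(1/2)`; for `τ = 1`, `c ≠ w` a solution is built from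
the staircase function `s ↦ sup_k (k s - k (k - 1) / 2)`.
-/

open Q94.LF

theorem Pool.Agent.Results.MP_02ff8d_an.UniqueIff.result
    {X : Type*} [NormedAddCommGroup X] [InnerProductSpace ℝ X] [Nontrivial X]
    (τ : ℝ) (hτ : 0 < τ) (E : X ≃L[ℝ] X) (hE : PosDef E) (c w : X) (β : ℝ) :
    (∀ f : X → EReal, Solves τ E c w β f ↔ f = f₀ τ E c w β) ↔ (τ = 1 ∧ c = w) :=
  unique_iff τ hτ E hE c w β
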